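import Pool.Agent.BEG.Stmts

/-!
# Squad BEG, module FGX: the explicit form for symmetries
-/

namespace Pool.Agent.BEG.H81

open Set Filter Topology MeasureTheory
open scoped InnerProductSpace ENNReal
open Pool.Agent.BE01 Pool.Agent.BEL Pool.Agent.BEF Pool.Agent.BEN Pool.Agent.BEH

set_option autoImplicit false

/-- FGX. -/
theorem fgx (ksy : KsyStmt) (fnx : FnxStmt) : FgxStmt := by
  intro d Ω G p k a l B φ hd hΩ hG hp ha hφ hφ0 hE hs hB hk hn
  obtain ⟨K, hK, hKm⟩ := ksy d Ω G (by rcases hd with h | h <;> omega) hΩ hG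
  exact fnx d Ω K p k a l B φ hd hΩ hK hp ha ((hKm φ).2 hφ) hφ0 hE
    (fun u hu => hs u ((hKm u).1 hu)) hB hk
    (fun n h1 h2 h3 u hu => hn n h1 h2 h3 u ((hKm u).1 hu))

end Pool.Agent.BEG.H81
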